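import Pool.Agent.BKW.Stmts
import Pool.Agent.Helper2_SQR.Def

/-!
# Assembly: all of arithmetic on almost all integers and almost all squares
-/

set_option autoImplicit false

namespace Pool.Agent.BKW.H2

open FirstOrder FirstOrder.Language Pool.Agent.SqDef Pool.Agent.SQD

theorem rig_iff (y : ℕ) : Pool.Agent.SQR.Rig 1 y ↔ Pool.Agent.BKW.Rig y := by
  constructor
  · rintro ⟨u, hu, rfl, h⟩
    refine ⟨by omega, fun m hm ht => ?_⟩
    obtain ⟨v, rfl⟩ : ∃ v, m = v + 1 := ⟨m - 1, by omega⟩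
    have h1 := h v (by omega) (fun j hj p hp => ?_)
    · rw [h1]
    · have h2 := ht.2 p hp
      have h3 := ht.1 p hp
      simp only [Nat.add_sub_cancel] at h2
      rcases Nat.le_one_iff_eq_zero_or_eq_one.1 hj with rfl | rfl
      · exact h2.symm
      · exact h3.symm
  · rintro ⟨hy, h⟩
    obtain ⟨u, rfl⟩ : ∃ u, y = u + 1 := ⟨y - 1, by omega⟩
    refine ⟨u, by omega, rfl, fun v hv hw => ?_⟩
    have h1 := h (v + 1) (by omega) ⟨fun q hq => (hw 1 le_rfl q hq).symm, fun q hq => ?_⟩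
    · omega
    · simp only [Nat.add_sub_cancel]
      exact (hw 0 (by omega) q hq).symm

/-- The final theorem of the squad, from the count RIG. -/
theorem fin (hRig : RigStmt) {L : FirstOrder.Language.{0, 0}} [L.Structure ℕ] (σ : Sig L) :
    ∃ M : Set ℕ,
      (∃ C : ℝ, ∀ x : ℕ, 2 ≤ x →
        ({n : ℕ | n ≤ x ∧ ¬ (n ∈ M ∧ n ^ 2 ∈ M)}.ncard : ℝ) ≤
          C * x * Real.exp (-(Real.log x) ^ (1 / 9 : ℝ))) ∧
      ∀ (r : ℕ) (R : Set (Fin r → ℕ)), Set.Definable (∅ : Set ℕ) arithLang R →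
        Set.Definable (∅ : Set ℕ) L {v : Fin r → ℕ | (∀ i, v i ∈ M) ∧ v ∈ R} := by
  refine ⟨{y | Pool.Agent.SQR.Rig 1 y}, ?_, fun r R hR =>
    Pool.Agent.SQR.rig_definable σ 1 r R hR⟩
  obtain ⟨C, hC⟩ := hRig
  refine ⟨C + 2 * Real.exp 1, fun x hx => ?_⟩
  have hx1 : (1 : ℝ) ≤ x := by exact_mod_cast (by omega : 1 ≤ x)
  have hx0 : (0 : ℝ) < x := by linarith
  have hl0 : 0 ≤ Real.log x := Real.log_nonneg hx1
  set E : ℝ := Real.exp (-(Real.log x) ^ (1 / 9 : ℝ)) with hE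
  have hsub : {n : ℕ | n ≤ x ∧ ¬ (n ∈ {y | Pool.Agent.SQR.Rig 1 y} ∧
      n ^ 2 ∈ {y | Pool.Agent.SQR.Rig 1 y})} ⊆
      ({0, 1} : Set ℕ) ∪ {n : ℕ | 2 ≤ n ∧ n ≤ x ∧ ¬ (Rig n ∧ Rig (n ^ 2))} := by
    rintro n ⟨hn, hne⟩
    rcases Nat.lt_or_ge n 2 with h | h
    · left
      interval_cases n <;> simp
    · right
      refine ⟨h, hn, fun hr => hne ⟨(rig_iff n).2 hr.1, (rig_iff _).2 hr.2⟩⟩
  have hfin : (({0, 1} : Set ℕ) ∪
      {n : ℕ | 2 ≤ n ∧ n ≤ x ∧ ¬ (Rig n ∧ Rig (n ^ 2))}).Finite :=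
    (Set.toFinite _).union ((Set.finite_Iic x).subset fun n hn => hn.2.1)
  have h1 := (Set.ncard_le_ncard hsub hfin).trans (Set.ncard_union_le _ _)
  have h2 : ({0, 1} : Set ℕ).ncard ≤ 2 := by
    rw [Set.ncard_pair (by norm_num)]
  have h3 : ({n : ℕ | n ≤ x ∧ ¬ (n ∈ {y | Pool.Agent.SQR.Rig 1 y} ∧
      n ^ 2 ∈ {y | Pool.Agent.SQR.Rig 1 y})}.ncard : ℝ) ≤
      2 + ({n : ℕ | 2 ≤ n ∧ n ≤ x ∧ ¬ (Rig n ∧ Rig (n ^ 2))}.ncard : ℝ) := by
    exact_mod_cast h1.trans (Nat.add_le_add_right h2 _)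
  have h4 := hC x hx
  have h5 : (Real.log x) ^ (1 / 9 : ℝ) ≤ 1 + Real.log x := by
    rcases le_total (Real.log x) 1 with h | h
    · have := Real.rpow_le_one hl0 h (by norm_num : (0 : ℝ) ≤ 1 / 9)
      linarith
    · have := Real.rpow_le_rpow_of_exponent_le h (by norm_num : (1 / 9 : ℝ) ≤ 1)
      rw [Real.rpow_one] at this
      linarith
  have h6 : 1 ≤ Real.exp 1 * x * E := by
    have h7 : Real.exp (-(1 + Real.log x)) ≤ E := Real.exp_le_exp.2 (by linarith)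
    calc (1 : ℝ) = Real.exp 1 * x * Real.exp (-(1 + Real.log x)) := by
          rw [Real.exp_neg, Real.exp_add, Real.exp_log hx0]
          field_simp
      _ ≤ Real.exp 1 * x * E := mul_le_mul_of_nonneg_left h7 (by positivity)
  calc _ ≤ 2 + ({n : ℕ | 2 ≤ n ∧ n ≤ x ∧ ¬ (Rig n ∧ Rig (n ^ 2))}.ncard : ℝ) := h3
    _ ≤ 2 * (Real.exp 1 * x * E) + C * x * E := by linarith
    _ = (C + 2 * Real.exp 1) * x * E := by ring

end Pool.Agent.BKW.H2
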